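import Pool.Agent.N96.PR.F

/-! The functions on the half space which belong to functions of `(|x|, y)`. -/

set_option autoImplicit false

open MeasureTheory Set Filter Topology

namespace Pool.Agent.N96.PR

open Pool.Agent.R117.RL (E sg sg_pos)

/-- the weight -/
noncomputable def w (q : ℕ) (r : ℝ) : ℝ := √(sg (q + 1)) * r ^ ((q : ℝ) / 2)

/-- its derivative -/
noncomputable def w' (q : ℕ) (r : ℝ) : ℝ := √(sg (q + 1)) * ((q : ℝ) / 2 * r ^ ((q : ℝ) / 2 - 1))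

theorem w_sq (q : ℕ) {r : ℝ} (hr : 0 < r) : w q r ^ 2 = sg (q + 1) * r ^ q := by
  have hs := sg_pos (Nat.succ_pos q)
  unfold w
  rw [mul_pow, Real.sq_sqrt hs.le, ← Real.rpow_natCast (r ^ ((q : ℝ) / 2)) 2, ← Real.rpow_mul hr.le]
  congr 1
  rw [← Real.rpow_natCast r q]
  congr 1
  push_cast
  ring

theorem w_deriv (q : ℕ) {r : ℝ} (hr : 0 < r) : HasDerivAt (w q) (w' q r) r :=
  (Real.hasDerivAt_rpow_const (Or.inl hr.ne')).const_mul _

theorem w'_eq (q : ℕ) {r : ℝ} (hr : 0 < r) : w' q r = (q : ℝ) / 2 / r * w q r := by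
  unfold w w'
  rw [Real.rpow_sub_one hr.ne']
  field_simp

theorem w_cont (q : ℕ) : ContinuousOn (w q) (Ioi 0) := fun _ hr =>
  (w_deriv q hr).continuousAt.continuousWithinAt

theorem w'_cont (q : ℕ) : ContinuousOn (w' q) (Ioi 0) := by
  apply ContinuousOn.mul continuousOn_const
  apply ContinuousOn.mul continuousOn_const
  exact ContinuousOn.rpow_const continuousOn_id fun r hr => Or.inl (ne_of_gt hr)

theorem w_norm (q : ℕ) {r : ℝ} (hr : 0 < r) (v : ℂ) :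
    ‖w q r • v‖ ^ 2 = sg (q + 1) * (r ^ q • ‖v‖ ^ 2) := by
  rw [norm_smul, mul_pow, Real.norm_eq_abs, sq_abs, w_sq q hr, smul_eq_mul]
  ring

/-- A profile with its partial derivatives. -/
structure Prof (q k : ℕ) (F F0 : ℝ × (Fin k → ℝ) → ℂ)
    (Fj : Fin k → ℝ × (Fin k → ℝ) → ℂ) : Prop where
  h0 : ∀ r, 0 < r → ∀ y, HasDerivAt (fun t => F (t, y)) (F0 (r, y)) r
  hj : ∀ r, 0 < r → ∀ y j, HasLineDerivAt ℝ (fun y => F (r, y)) (Fj j (r, y)) y (Pi.single j 1)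
  cf : ContinuousOn F (Ioi 0 ×ˢ univ)
  c0 : ContinuousOn F0 (Ioi 0 ×ˢ univ)
  cj : ∀ j, ContinuousOn (Fj j) (Ioi 0 ×ˢ univ)
  i2 : Integrable (fun z : E (q + 1) × (Fin k → ℝ) => ‖F (‖z.1‖, z.2)‖ ^ 2)
  i0 : Integrable (fun z : E (q + 1) × (Fin k → ℝ) => ‖F0 (‖z.1‖, z.2)‖ ^ 2)
  ij : ∀ j, Integrable (fun z : E (q + 1) × (Fin k → ℝ) => ‖Fj j (‖z.1‖, z.2)‖ ^ 2)

variable {q k : ℕ} {F F0 : ℝ × (Fin k → ℝ) → ℂ} {Fj : Fin k → ℝ × (Fin k → ℝ) → ℂ}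

theorem nsq_int {g : ℝ × (Fin k → ℝ) → ℂ} (hg : ContinuousOn g (Ioi 0 ×ˢ univ))
    (hi : Integrable (fun z : E (q + 1) × (Fin k → ℝ) => ‖g (‖z.1‖, z.2)‖ ^ 2)) :
    Integrable (fun z => ‖w q z.1 • g z‖ ^ 2) (H k) ∧
      ∫ z, ‖w q z.1 • g z‖ ^ 2 ∂(H k) =
        ∫ z : E (q + 1) × (Fin k → ℝ), ‖g (‖z.1‖, z.2)‖ ^ 2 := by
  have h1 := (polP_int (q := q) (G := fun r y => ‖g (r, y)‖ ^ 2) (hg.norm.pow 2)).1 hi
  have h2 := polP (q := q) (G := fun r y => ‖g (r, y)‖ ^ 2) (hg.norm.pow 2) hi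
  have h3 : (fun z : ℝ × (Fin k → ℝ) => sg (q + 1) * (z.1 ^ q • ‖g (z.1, z.2)‖ ^ 2)) =ᵐ[H k]
      fun z => ‖w q z.1 • g z‖ ^ 2 := by
    filter_upwards [H_ae k] with z hz
    exact (w_norm q hz _).symm
  refine ⟨(h1.const_mul (sg (q + 1))).congr h3, ?_⟩
  rw [← integral_congr_ae h3, integral_const_mul]
  exact h2.symm

theorem Prof.dat (h : Prof q k F F0 Fj) :
    Dat k ((q : ℝ) / 2) (fun z => w q z.1 • F z) (fun z => w q z.1 • F0 z + w' q z.1 • F z)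
      (fun j z => w q z.1 • Fj j z) := by
  have cw : ContinuousOn (fun z : ℝ × (Fin k → ℝ) => w q z.1) (Ioi 0 ×ˢ univ) :=
    (w_cont q).comp continuousOn_fst fun z hz => hz.1
  have cw' : ContinuousOn (fun z : ℝ × (Fin k → ℝ) => w' q z.1) (Ioi 0 ×ˢ univ) :=
    (w'_cont q).comp continuousOn_fst fun z hz => hz.1
  refine ⟨fun r hr y => ?_, fun r hr y j => ?_, cw.smul h.cf, (cw.smul h.c0).add (cw'.smul h.cf),
    fun j => cw.smul (h.cj j), (nsq_int h.cf h.i2).1, ?_, fun j => (nsq_int (h.cj j) (h.ij j)).1⟩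
  · exact (w_deriv q hr).smul (h.h0 r hr y)
  · exact HasDerivAt.const_smul (w q r) (h.hj r hr y j)
  · refine (nsq_int h.c0 h.i0).1.congr ?_
    filter_upwards [H_ae k] with z hz
    congr 2
    rw [w'_eq q hz, smul_smul]
    abel

theorem Prof.phi (h : Prof q k F F0 Fj) :
    ∫ z, ‖(w q z.1 • F0 z + w' q z.1 • F z) - ((q : ℝ) / 2 / z.1) • (w q z.1 • F z)‖ ^ 2 ∂(H k) =
      ∫ z : E (q + 1) × (Fin k → ℝ), ‖F0 (‖z.1‖, z.2)‖ ^ 2 := by
  rw [← (nsq_int h.c0 h.i0).2]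
  refine integral_congr_ae ?_
  filter_upwards [H_ae k] with z hz
  congr 2
  rw [w'_eq q hz, smul_smul]
  abel

theorem E_memLp {g : ℝ × (Fin k → ℝ) → ℂ} (hg : ContinuousOn g (Ioi 0 ×ˢ univ))
    (hi : Integrable (fun z : E (q + 1) × (Fin k → ℝ) => ‖g (‖z.1‖, z.2)‖ ^ 2)) :
    MemLp (fun z : E (q + 1) × (Fin k → ℝ) => g (‖z.1‖, z.2)) 2 volume :=
  (memLp_two_iff_integrable_sq_norm (E_meas (G := fun r y => g (r, y)) hg)).2 hi

theorem inner_eq {F1 F2 : ℝ × (Fin k → ℝ) → ℂ} (c1 : ContinuousOn F1 (Ioi 0 ×ˢ univ))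
    (c2 : ContinuousOn F2 (Ioi 0 ×ˢ univ))
    (i1 : Integrable (fun z : E (q + 1) × (Fin k → ℝ) => ‖F1 (‖z.1‖, z.2)‖ ^ 2))
    (i2 : Integrable (fun z : E (q + 1) × (Fin k → ℝ) => ‖F2 (‖z.1‖, z.2)‖ ^ 2)) :
    ∫ x, (starRingEnd ℂ) (ext (fun z => w q z.1 • F1 z) x) * ext (fun z => w q z.1 • F2 z) x =
      ∫ z : E (q + 1) × (Fin k → ℝ), star (F1 (‖z.1‖, z.2)) * F2 (‖z.1‖, z.2) := by
  have e1 : ∀ x, (starRingEnd ℂ) (ext (fun z => w q z.1 • F1 z) x) *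
      ext (fun z => w q z.1 • F2 z) x =
      ext (fun z => (starRingEnd ℂ) (w q z.1 • F1 z) * (w q z.1 • F2 z)) x := by
    intro x
    unfold ext
    by_cases h : T x ∈ Ioi (0 : ℝ) ×ˢ (univ : Set (Fin k → ℝ))
    · rw [indicator_of_mem h, indicator_of_mem h, indicator_of_mem h]
    · rw [indicator_of_notMem h, indicator_of_notMem h, indicator_of_notMem h, mul_zero]
  simp only [e1]
  rw [ext_integral]
  have hi : Integrable (fun z : E (q + 1) × (Fin k → ℝ) =>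
      star (F1 (‖z.1‖, z.2)) * F2 (‖z.1‖, z.2)) :=
    (E_memLp c1 i1).star.integrable_mul (E_memLp c2 i2)
  have hc : ContinuousOn (fun z : ℝ × (Fin k → ℝ) => star (F1 z) * F2 z) (Ioi 0 ×ˢ univ) :=
    (continuous_star.comp_continuousOn c1).mul c2
  rw [polP (q := q) (G := fun r y => star (F1 (r, y)) * F2 (r, y)) hc hi, ← integral_smul]
  refine integral_congr_ae ?_
  filter_upwards [H_ae k] with z hz
  have h3 := w_sq q hz
  have h4 : (starRingEnd ℂ) (w q z.1 • F1 z) * (w q z.1 • F2 z) =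
      (w q z.1 ^ 2) • (star (F1 z) * F2 z) := by
    simp only [Complex.real_smul, map_mul, Complex.conj_ofReal, Complex.star_def]
    push_cast
    ring
  rw [h4, h3, mul_smul]

end Pool.Agent.N96.PR
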