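import Pool.Agent.N96.PR.G

/-! The kinetic inequality for the profiles. -/

set_option autoImplicit false

open MeasureTheory Set Filter Topology

namespace Pool.Agent.N96.PR

open Pool.Agent.R117.RL (E sg sg_pos om_pos)
open LTd (pd WGradC)

theorem Kcl_eq (d : ℕ) : LTd.Kcl d = Pool.Agent.R117.RL.Kcl d := rfl

theorem Kcl_pos {d : ℕ} (hd : 0 < d) : 0 < Pool.Agent.R117.RL.Kcl d := by
  have h1 := om_pos d
  have h2 : (0 : ℝ) < d := by exact_mod_cast hd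
  have := Real.pi_pos
  unfold Pool.Agent.R117.RL.Kcl
  positivity

/-- the constant for `n` variables -/
noncomputable def K1 (n : ℕ) : ℝ := (3 / 4 : ℝ) ^ (1 / (n : ℝ)) * Pool.Agent.R117.RL.Kcl n

theorem K1_pos {n : ℕ} (hn : 0 < n) : 0 < K1 n := by
  have := Kcl_pos hn
  unfold K1
  positivity

theorem system {q k N : ℕ} (hq : 3 ≤ q) (F F0 : Fin N → ℝ × (Fin k → ℝ) → ℂ)
    (Fj : Fin N → Fin k → ℝ × (Fin k → ℝ) → ℂ) (h : ∀ n, Prof q k (F n) (F0 n) (Fj n))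
    (ho : ∀ n m, ∫ z : E (q + 1) × (Fin k → ℝ), star (F n (‖z.1‖, z.2)) * F m (‖z.1‖, z.2) =
      if n = m then (1 : ℂ) else 0) :
    Integrable (fun z : E (q + 1) × (Fin k → ℝ) =>
      (∑ n, ‖F n (‖z.1‖, z.2)‖ ^ 2) ^ (1 + 2 / ((q + (k + 1) : ℕ) : ℝ))) ∧
    KK q (k + 1) (sg (q + 1)) (K1 (k + 1)) * ∫ z : E (q + 1) × (Fin k → ℝ),
      (∑ n, ‖F n (‖z.1‖, z.2)‖ ^ 2) ^ (1 + 2 / ((q + (k + 1) : ℕ) : ℝ)) ≤
      ∑ n, ((∫ z : E (q + 1) × (Fin k → ℝ), ‖F0 n (‖z.1‖, z.2)‖ ^ 2) +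
        ∑ j, ∫ z : E (q + 1) × (Fin k → ℝ), ‖Fj n j (‖z.1‖, z.2)‖ ^ 2) := by
  have hq' : (3 : ℝ) ≤ q := by exact_mod_cast hq
  have hα : 1 < (q : ℝ) / 2 := by linarith
  set α : ℝ := (q : ℝ) / 2 with hαd
  have hαα : 0 < α ^ 2 - α := by nlinarith
  have hs := sg_pos (Nat.succ_pos q)
  have hK := K1_pos (Nat.succ_pos k)
  set f : Fin N → ℝ × (Fin k → ℝ) → ℂ := fun n z => w q z.1 • F n z with hf
  set f0 : Fin N → ℝ × (Fin k → ℝ) → ℂ := fun n z => w q z.1 • F0 n z + w' q z.1 • F n z with hf0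
  set fj : Fin N → Fin k → ℝ × (Fin k → ℝ) → ℂ := fun n j z => w q z.1 • Fj n j z with hfj
  have hD : ∀ n, Dat k α (f n) (f0 n) (fj n) := fun n => (h n).dat
  have hφ : ∀ n, ∫ z, ‖f0 n z - (α / z.1) • f n z‖ ^ 2 ∂(H k) =
      ∫ z : E (q + 1) × (Fin k → ℝ), ‖F0 n (‖z.1‖, z.2)‖ ^ 2 := fun n => (h n).phi
  have hW : ∀ n, WGradC (ext (f n)) (Fin.cons (ext (f0 n)) (fun j => ext (fj n j))) :=
    fun n => (hD n).wgrad hα
  have hin : ∀ n m, ∫ x, (starRingEnd ℂ) (ext (f n) x) * ext (f m) x =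
      if n = m then (1 : ℂ) else 0 := by
    intro n m
    rw [← ho n m]
    exact inner_eq (h n).cf (h m).cf (h n).i2 (h m).i2
  have hsub := Pool.Agent.R282.KO.sub_of_ortho (fun n => ext (f n)) (fun n => (hW n).f2) hin
  have hkin := Pool.Agent.R282.KO.sub_thm (k + 1) (Nat.succ_pos k) N (fun n => ext (f n))
    (fun n => Fin.cons (ext (f0 n)) (fun j => ext (fj n j))) hW hsub
  -- translation
  have e1 : (fun x : Fin (k + 1) → ℝ => (∑ n, ‖ext (f n) x‖ ^ 2) ^ (1 + 2 / ((k + 1 : ℕ) : ℝ))) =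
      ext (fun z => (∑ n, ‖f n z‖ ^ 2) ^ (1 + 2 / ((k + 1 : ℕ) : ℝ))) := by
    funext x
    unfold ext
    by_cases hx : T x ∈ Ioi (0 : ℝ) ×ˢ (univ : Set (Fin k → ℝ))
    · simp only [indicator_of_mem hx]
    · simp only [indicator_of_notMem hx]
      rw [norm_zero, zero_pow two_ne_zero, Finset.sum_const_zero, Real.zero_rpow (by positivity)]
  have e2 : ∀ g : ℝ × (Fin k → ℝ) → ℂ, ∫ x, ‖ext g x‖ ^ 2 = ∫ z, ‖g z‖ ^ 2 ∂(H k) := by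
    intro g
    have : (fun x => ‖ext g x‖ ^ 2) = ext (fun z => ‖g z‖ ^ 2) :=
      funext fun x => ext_comp g (fun v => ‖v‖ ^ 2) (by simp) x
    rw [this, ext_integral]
  rw [e1, ext_integrable, ext_integral] at hkin
  obtain ⟨hI1, hk1⟩ := hkin
  have e3 : ∀ n, ∑ i, ∫ x, ‖(Fin.cons (ext (f0 n)) (fun j => ext (fj n j)) :
      Fin (k + 1) → (Fin (k + 1) → ℝ) → ℂ) i x‖ ^ 2 =
      ∫ z, ‖f0 n z‖ ^ 2 ∂(H k) + ∑ j, ∫ z, ‖fj n j z‖ ^ 2 ∂(H k) := by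
    intro n
    rw [Fin.sum_univ_succ]
    simp only [Fin.cons_zero, Fin.cons_succ]
    rw [e2]
    congr 1
    exact Finset.sum_congr rfl fun j _ => e2 _
  rw [Finset.sum_congr rfl fun n _ => e3 n] at hk1
  have hk2 : K1 (k + 1) * ∫ z, (∑ n, ‖f n z‖ ^ 2) ^ (1 + 2 / ((k + 1 : ℕ) : ℝ)) ∂(H k) ≤
      ∑ n, (∫ z, ‖f0 n z‖ ^ 2 ∂(H k) + ∑ j, ∫ z, ‖fj n j z‖ ^ 2 ∂(H k)) := hk1
  -- the centrifugal term
  have hB : ∀ n, Integrable (fun z => (α ^ 2 - α) * (‖f n z‖ ^ 2 / z.1 ^ 2)) (H k) := by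
    intro n
    have h1 := ((hD n).hardy hα).1.sub ((hD n).f0_int hα)
    refine h1.congr (Eventually.of_forall fun z => ?_)
    simp only [Pi.sub_apply]
    ring
  have hB2 : ∀ n, ∫ z, ‖f0 n z‖ ^ 2 ∂(H k) + ∫ z, (α ^ 2 - α) * (‖f n z‖ ^ 2 / z.1 ^ 2) ∂(H k) ≤
      ∫ z : E (q + 1) × (Fin k → ℝ), ‖F0 n (‖z.1‖, z.2)‖ ^ 2 := by
    intro n
    rw [← hφ n, ← integral_add ((hD n).f0_int hα) (hB n)]
    exact ((hD n).hardy hα).2
  -- the density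
  set P : ℝ × (Fin k → ℝ) → ℝ := fun z => ∑ n, ‖F n z‖ ^ 2 with hP
  have hP0 : ∀ z, 0 ≤ P z := fun z => Finset.sum_nonneg fun n _ => sq_nonneg _
  have hPc : ContinuousOn P (Ioi 0 ×ˢ univ) := by
    apply continuousOn_finsetSum
    intro n _
    exact (h n).cf.norm.pow 2
  have hsum : ∀ z : ℝ × (Fin k → ℝ), 0 < z.1 → ∑ n, ‖f n z‖ ^ 2 = sg (q + 1) * z.1 ^ q * P z := by
    intro z hz
    rw [hP]
    simp only
    rw [Finset.mul_sum]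
    refine Finset.sum_congr rfl fun n _ => ?_
    rw [hf]
    simp only
    rw [w_norm q hz, smul_eq_mul]
    ring
  set c : ℝ := α ^ 2 - α with hc
  set Kc := KK q (k + 1) (sg (q + 1)) (K1 (k + 1)) with hKc
  have hKc0 : 0 < Kc := by
    have hd' : (0 : ℝ) < ((q + (k + 1) : ℕ) : ℝ) := by exact_mod_cast (by omega : 0 < q + (k + 1))
    have hq2 : (0 : ℝ) < (q : ℝ) - 2 := by linarith
    rw [hKc]
    unfold KK
    positivity
  set p : ℝ := 1 + 2 / ((q + (k + 1) : ℕ) : ℝ) with hp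
  set R : ℝ × (Fin k → ℝ) → ℝ := fun z =>
    K1 (k + 1) * (∑ n, ‖f n z‖ ^ 2) ^ (1 + 2 / ((k + 1 : ℕ) : ℝ)) +
      ∑ n, c * (‖f n z‖ ^ 2 / z.1 ^ 2) with hR
  have hRi : Integrable R (H k) := (hI1.const_mul _).add (integrable_finsetSum _ fun n _ => hB n)
  have hpt : ∀ᵐ z ∂(H k), Kc * (sg (q + 1) * (z.1 ^ q • P z ^ p)) ≤ R z := by
    filter_upwards [H_ae k] with z hz
    have hz0 : (0 : ℝ) < z.1 := hz
    have h1 := ptw (n := k + 1) hq (Nat.succ_pos k) hK hs hz0 (hP0 z)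
    rw [hR]
    simp only
    rw [← Finset.mul_sum, ← Finset.sum_div, hsum z hz0, smul_eq_mul, ← mul_assoc (sg (q + 1))]
    exact h1
  have hI : Integrable (fun z : ℝ × (Fin k → ℝ) => z.1 ^ q • P z ^ p) (H k) := by
    have hcc : ContinuousOn (fun z : ℝ × (Fin k → ℝ) => z.1 ^ q • P z ^ p) (Ioi 0 ×ˢ univ) :=
      smul_cont (G := fun r y => P (r, y) ^ p) (hPc.rpow_const fun z _ => Or.inr (by positivity))
    refine Integrable.mono' (hRi.const_mul (Kc * sg (q + 1))⁻¹) (H_meas hcc) ?_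
    filter_upwards [H_ae k, hpt] with z hz h3
    have hz0 : (0 : ℝ) < z.1 := hz
    have h0 : 0 ≤ z.1 ^ q • P z ^ p := by
      rw [smul_eq_mul]
      exact mul_nonneg (by positivity) (Real.rpow_nonneg (hP0 z) _)
    rw [Real.norm_eq_abs, abs_of_nonneg h0]
    rw [← mul_assoc] at h3
    rw [← div_eq_inv_mul, le_div_iff₀ (by positivity), mul_comm]
    exact h3
  have hPp : ContinuousOn (fun z : ℝ × (Fin k → ℝ) => P z ^ p) (Ioi 0 ×ˢ univ) :=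
    hPc.rpow_const fun z _ => Or.inr (by positivity)
  have hfin : Integrable (fun z : E (q + 1) × (Fin k → ℝ) => P (‖z.1‖, z.2) ^ p) :=
    (polP_int (q := q) (G := fun r y => P (r, y) ^ p) hPp).2 hI
  refine ⟨hfin, ?_⟩
  have e5 : ∫ z : E (q + 1) × (Fin k → ℝ), P (‖z.1‖, z.2) ^ p =
      sg (q + 1) • ∫ z, z.1 ^ q • P z ^ p ∂(H k) :=
    polP (q := q) (G := fun r y => P (r, y) ^ p) hPp hfin
  have e6 : ∀ n j, ∫ z : E (q + 1) × (Fin k → ℝ), ‖Fj n j (‖z.1‖, z.2)‖ ^ 2 =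
      ∫ z, ‖fj n j z‖ ^ 2 ∂(H k) := fun n j => (nsq_int ((h n).cj j) ((h n).ij j)).2.symm
  have h7 : Kc * (sg (q + 1) • ∫ z, z.1 ^ q • P z ^ p ∂(H k)) ≤ ∫ z, R z ∂(H k) := by
    rw [smul_eq_mul, ← integral_const_mul, ← integral_const_mul]
    exact integral_mono_ae ((hI.const_mul _).const_mul _) hRi hpt
  have h8 : ∫ z, R z ∂(H k) = K1 (k + 1) *
      ∫ z, (∑ n, ‖f n z‖ ^ 2) ^ (1 + 2 / ((k + 1 : ℕ) : ℝ)) ∂(H k) +
      ∑ n, ∫ z, c * (‖f n z‖ ^ 2 / z.1 ^ 2) ∂(H k) := by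
    rw [hR, integral_add (hI1.const_mul _) (integrable_finsetSum _ fun n _ => hB n),
      integral_const_mul, integral_finsetSum _ fun n _ => hB n]
  show Kc * ∫ z : E (q + 1) × (Fin k → ℝ), P (‖z.1‖, z.2) ^ p ≤ _
  rw [e5]
  refine h7.trans ?_
  rw [h8]
  calc K1 (k + 1) * ∫ z, (∑ n, ‖f n z‖ ^ 2) ^ (1 + 2 / ((k + 1 : ℕ) : ℝ)) ∂(H k) +
        ∑ n, ∫ z, c * (‖f n z‖ ^ 2 / z.1 ^ 2) ∂(H k)
      ≤ ∑ n, (∫ z, ‖f0 n z‖ ^ 2 ∂(H k) + ∑ j, ∫ z, ‖fj n j z‖ ^ 2 ∂(H k)) +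
        ∑ n, ∫ z, c * (‖f n z‖ ^ 2 / z.1 ^ 2) ∂(H k) := by linarith
    _ = ∑ n, ((∫ z, ‖f0 n z‖ ^ 2 ∂(H k) + ∫ z, c * (‖f n z‖ ^ 2 / z.1 ^ 2) ∂(H k)) +
        ∑ j, ∫ z, ‖fj n j z‖ ^ 2 ∂(H k)) := by
        rw [← Finset.sum_add_distrib]
        refine Finset.sum_congr rfl fun n _ => ?_
        ring
    _ ≤ _ := by
        refine Finset.sum_le_sum fun n _ => ?_
        rw [Finset.sum_congr rfl fun j _ => e6 n j]
        linarith [hB2 n]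

end Pool.Agent.N96.PR
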