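import Pool.Agent.N96.PR.I
import Pool.Agent.R117.RL.ShellCst

/-! The comparison of the constants. -/

set_option autoImplicit false

open MeasureTheory Set Filter Topology

namespace Pool.Agent.N96.PR

open Pool.Agent.R117.RL (E sg sg_pos om_pos Kcl Kcl_pow Ga Ga_pos Ga_step Ga_one Ga_two Ga_bound
  bern pow_frac sg_sq)

/-- the quotient of the constants, up to a factor -/
noncomputable def bb (n : ℕ) : ℝ := ((n : ℝ) + 2) ^ n / Ga n ^ 2

theorem bb_pos (n : ℕ) : 0 < bb n := by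
  have := Ga_pos n
  unfold bb
  positivity

theorem bb_step (n : ℕ) : bb (n + 2) = 4 * (1 + 2 / ((n + 2 : ℕ) : ℝ)) ^ (n + 2) * bb n := by
  have h := Ga_pos n
  have e : (1 + 2 / ((n + 2 : ℕ) : ℝ)) = ((n : ℝ) + 4) / (n + 2) := by
    push_cast
    field_simp
    ring
  unfold bb
  rw [Ga_step, e, div_pow, mul_pow ((((n : ℝ) + 2)) / 2)]
  push_cast
  have e2 : (n : ℝ) + 2 + 2 = n + 4 := by ring
  rw [e2, pow_succ ((n : ℝ) + 2) (n + 1), pow_succ ((n : ℝ) + 2) n]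
  field_simp
  norm_num

theorem mono_pow {s t : ℕ} (hs : 0 < s) (hst : s ≤ t) :
    (1 + 2 / (s : ℝ)) ^ s ≤ (1 + 2 / (t : ℝ)) ^ t := by
  have ht : 0 < t := by omega
  have hs' : (0 : ℝ) < s := by exact_mod_cast hs
  have ht' : (0 : ℝ) < t := by exact_mod_cast ht
  have hst' : (s : ℝ) ≤ t := by exact_mod_cast hst
  have h1 := one_add_mul_self_le_rpow_one_add (s := 2 / (t : ℝ)) (p := (t : ℝ) / s)
    (by have : 0 ≤ 2 / (t : ℝ) := by positivity
        linarith) (by rw [le_div_iff₀ hs']; linarith)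
  have h2 : 1 + (t : ℝ) / s * (2 / t) = 1 + 2 / s := by field_simp
  rw [h2] at h1
  have h3 := pow_le_pow_left₀ (by positivity) h1 s
  rwa [pow_frac (by positivity) hs t] at h3

theorem R_step (q n : ℕ) : bb (q + n) / bb n ≤ bb (q + (n + 2)) / bb (n + 2) := by
  have h1 := bb_pos n
  have h2 := bb_pos (q + n)
  have h3 := mono_pow (s := n + 2) (t := q + n + 2) (by omega) (by omega)
  have e : q + (n + 2) = q + n + 2 := by ring
  rw [e, bb_step (q + n), bb_step n, div_le_div_iff₀ h1 (by positivity)]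
  have h4 : 0 ≤ 4 * (bb n * bb (q + n)) := by positivity
  nlinarith [mul_le_mul_of_nonneg_left h3 h4]

theorem Ga_half (n : ℕ) : Ga (n + 1) ^ 2 ≤ ((n : ℝ) + 2) / 2 * Ga n ^ 2 := by
  set x : ℝ := (n : ℝ) / 2 + 1 with hx
  have hx0 : 0 < x := by positivity
  have h1 := Real.Gamma_mul_add_mul_le_rpow_Gamma_mul_rpow_Gamma (s := x) (t := x + 1)
    (a := 1 / 2) (b := 1 / 2) hx0 (by linarith) (by norm_num) (by norm_num) (by norm_num)
  have e1 : 1 / 2 * x + 1 / 2 * (x + 1) = ((n + 1 : ℕ) : ℝ) / 2 + 1 := by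
    rw [hx]; push_cast; ring
  have g0 : 0 < Real.Gamma x := Real.Gamma_pos_of_pos hx0
  have g1 : 0 < Real.Gamma (x + 1) := Real.Gamma_pos_of_pos (by linarith)
  have g2 : 0 < Ga (n + 1) := Ga_pos _
  rw [e1, ← Real.sqrt_eq_rpow, ← Real.sqrt_eq_rpow, ← Real.sqrt_mul g0.le] at h1
  have h2 : Ga (n + 1) ^ 2 ≤ (√(Real.Gamma x * Real.Gamma (x + 1))) ^ 2 :=
    pow_le_pow_left₀ g2.le h1 2
  rw [Real.sq_sqrt (by positivity), Real.Gamma_add_one hx0.ne'] at h2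
  refine h2.trans (le_of_eq ?_)
  show Real.Gamma x * (x * Real.Gamma x) = ((n : ℝ) + 2) / 2 * Real.Gamma x ^ 2
  rw [hx]
  ring

theorem bb_one : bb 1 = 12 / Real.pi := by
  have hπ := Real.pi_pos
  unfold bb
  rw [Ga_one, div_pow, Real.sq_sqrt hπ.le]
  push_cast
  field_simp
  norm_num

theorem bb_two : bb 2 = 16 := by
  unfold bb
  rw [Ga_two]
  norm_num

theorem R_two {q : ℕ} (hq : 5 ≤ q) : bb (q + 1) / bb 1 ≤ bb (q + 2) / bb 2 := by
  have hq' : (5 : ℝ) ≤ q := by exact_mod_cast hq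
  have hπ := Real.pi_pos
  have hπ2 := Real.pi_lt_d2
  have hg1 := Ga_pos (q + 1)
  have hg2 := Ga_pos (q + 2)
  have hb1 := bb_pos (q + 1)
  rw [bb_one, bb_two]
  have h1 : 4.4 * bb (q + 1) ≤ bb (q + 2) := by
    have h2 := Ga_half (q + 1)
    have h3 := bern (x := 1 / ((q : ℝ) + 3)) (by positivity) (q + 2)
    have h4 : (2.2 : ℝ) ≤ (1 + 1 / ((q : ℝ) + 3)) ^ (q + 2) := by
      refine le_trans ?_ h3
      push_cast
      have hu : (0 : ℝ) < (q : ℝ) + 3 := by linarith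
      have e1 : 1 + ((q : ℝ) + 2) * (1 / (q + 3)) + (q + 2) * (q + 2 - 1) * (1 / (q + 3)) ^ 2 / 2 =
          (2 * (q + 3) ^ 2 + 2 * (q + 2) * (q + 3) + (q + 2) * (q + 1)) / (2 * (q + 3) ^ 2) := by
        field_simp
        ring
      rw [e1, le_div_iff₀ (by positivity)]
      nlinarith
    have e2 : bb (q + 2) * Ga (q + 2) ^ 2 = ((q : ℝ) + 4) ^ (q + 2) := by
      unfold bb
      push_cast
      rw [div_mul_cancel₀ _ (by positivity)]
      ring
    have e3 : bb (q + 1) * Ga (q + 1) ^ 2 = ((q : ℝ) + 3) ^ (q + 1) := by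
      unfold bb
      push_cast
      rw [div_mul_cancel₀ _ (by positivity)]
      ring
    have e4 : (1 + 1 / ((q : ℝ) + 3)) ^ (q + 2) * ((q : ℝ) + 3) ^ (q + 2) =
        ((q : ℝ) + 4) ^ (q + 2) := by
      rw [← mul_pow]
      congr 1
      field_simp
      ring
    have h5 : 4.4 * bb (q + 1) * Ga (q + 2) ^ 2 ≤ bb (q + 2) * Ga (q + 2) ^ 2 := by
      rw [e2, ← e4]
      calc 4.4 * bb (q + 1) * Ga (q + 2) ^ 2
          ≤ 4.4 * bb (q + 1) * ((((q + 1 : ℕ) : ℝ) + 2) / 2 * Ga (q + 1) ^ 2) :=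
            mul_le_mul_of_nonneg_left h2 (by positivity)
        _ = 2.2 * ((q + 3) * (bb (q + 1) * Ga (q + 1) ^ 2)) := by push_cast; ring
        _ = 2.2 * ((q : ℝ) + 3) ^ (q + 2) := by rw [e3]; ring
        _ ≤ _ := mul_le_mul_of_nonneg_right h4 (by positivity)
    exact le_of_mul_le_mul_right h5 (by positivity)
  rw [div_le_div_iff₀ (by positivity) (by norm_num)]
  have h6 : bb (q + 2) * (12 / Real.pi) * Real.pi = 12 * bb (q + 2) := by field_simp
  have h7 : bb (q + 1) * 16 * Real.pi ≤ bb (q + 2) * (12 / Real.pi) * Real.pi := by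
    rw [h6]
    nlinarith
  exact le_of_mul_le_mul_right h7 hπ

theorem R_all {q : ℕ} (hq : 5 ≤ q) : ∀ n : ℕ, bb (q + 1) / bb 1 ≤ bb (q + (n + 1)) / bb (n + 1)
  | 0 => le_rfl
  | 1 => R_two hq
  | (n + 2) => (R_all hq n).trans (R_step q (n + 1))

theorem K1_pow {n : ℕ} (hn : 0 < n) : K1 n ^ n = 3 / 4 * Kcl n ^ n := by
  have h := pow_frac (x := (3 / 4 : ℝ)) (by norm_num) hn 1
  simp only [Nat.cast_one, pow_one] at h
  unfold K1
  rw [mul_pow, h]

/-- the first factor -/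
noncomputable def AA (q : ℕ) : ℝ :=
  3 / 4 * Real.pi * (((q : ℝ) - 2) / 16) ^ q * ((q : ℝ) + 1) ^ 2 / Ga (q + 1) ^ 2

theorem KK_eq {q n : ℕ} (hq : 3 ≤ q) (hn : 0 < n) :
    KK q n (sg (q + 1)) (K1 n) ^ (q + n) = Kcl (q + n) ^ (q + n) * (AA q * (bb (q + n) / bb n)) := by
  have hs := sg_pos (Nat.succ_pos q)
  have hn' : (0 : ℝ) < n := by exact_mod_cast hn
  have hd' : (0 : ℝ) < ((q + n : ℕ) : ℝ) := by exact_mod_cast (by omega : 0 < q + n)
  have hπ := Real.pi_pos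
  have g1 := Ga_pos n
  have g2 := Ga_pos (q + n)
  have g3 := Ga_pos (q + 1)
  rw [KK_pow hq hn (K1_pos hn) hs, mul_pow _ (K1 n), K1_pow hn, Kcl_pow hn, Kcl_pow (by omega),
    sg_sq (Nat.succ_pos q)]
  unfold AA bb
  generalize ((q + n : ℕ) : ℝ) = D at *
  have e1 : (D * ((q : ℝ) - 2) / 4) ^ q = D ^ q * ((q : ℝ) - 2) ^ q / 4 ^ q := by
    rw [div_pow, mul_pow]
  have e2 : (((q : ℝ) - 2) / 16) ^ q = ((q : ℝ) - 2) ^ q / (4 ^ q * 4 ^ q) := by
    rw [div_pow, ← mul_pow]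
    norm_num
  rw [e1, e2, div_pow, div_pow, div_pow]
  have e3 : (4 : ℝ) ^ (q + n) = 4 ^ q * 4 ^ n := pow_add _ _ _
  have e4 : D ^ (q + n) = D ^ q * D ^ n := pow_add _ _ _
  have e5 : Real.pi ^ (q + n) = Real.pi ^ q * Real.pi ^ n := pow_add _ _ _
  rw [e3, e4, e5]
  push_cast
  rw [pow_succ Real.pi q]
  have : (D + 2) ^ (q + n) ≠ 0 := by positivity
  field_simp

theorem Kcl_le_KK {q n : ℕ} (hq : 5 ≤ q) (hn : 0 < n) :
    Kcl (q + n) ≤ KK q n (sg (q + 1)) (K1 n) := by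
  have hs := sg_pos (Nat.succ_pos q)
  have hq' : (5 : ℝ) ≤ q := by exact_mod_cast hq
  have hπ := Real.pi_pos
  have g3 := Ga_pos (q + 1)
  apply le_of_pow_le_pow_left₀ (by omega : q + n ≠ 0) (KK_nonneg (by omega) (K1_pos hn) hs)
  rw [KK_eq (by omega) hn]
  have hK : 0 ≤ Kcl (q + n) ^ (q + n) := by
    have := Kcl_pos (d := q + n) (by omega)
    positivity
  have hq2 : (0 : ℝ) < (q : ℝ) - 2 := by linarith
  have hA : 0 < AA q := by
    unfold AA
    positivity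
  have h1 : 1 ≤ AA q * (bb (q + 1) / bb 1) := by
    have hb := Ga_bound (q + 1) (by omega)
    have e0 : ((q + 1 : ℕ) : ℝ) = (q : ℝ) + 1 := by push_cast; ring
    rw [e0] at hb
    have e1 : AA q * (bb (q + 1) / bb 1) = ((((q : ℝ) + 1 - 3) * ((q : ℝ) + 1 + 2)) / 16) ^ (q + 1) *
        (((q : ℝ) + 1) ^ 2 / ((q : ℝ) + 1 - 3)) * Real.pi ^ 2 / Ga (q + 1) ^ 4 := by
      rw [bb_one]
      unfold AA bb
      have e2 : (q : ℝ) + 1 - 3 = q - 2 := by ring
      rw [e0, e2, div_pow, div_pow, mul_pow, pow_succ ((q : ℝ) - 2) q, pow_succ (16 : ℝ) q]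
      field_simp
      ring
    rw [e1, le_div_iff₀ (by positivity), one_mul]
    exact hb
  obtain ⟨m, rfl⟩ : ∃ m, n = m + 1 := ⟨n - 1, by omega⟩
  have h2 : 1 ≤ AA q * (bb (q + (m + 1)) / bb (m + 1)) :=
    h1.trans (mul_le_mul_of_nonneg_left (R_all hq m) hA.le)
  nlinarith [mul_le_mul_of_nonneg_left h2 hK]

end Pool.Agent.N96.PR
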