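import Pool.Agent.N96.PR.J
import Pool.Agent.R117.RL.Full

/-! Systems of functions of `(|x|, y)`. -/

set_option autoImplicit false

open MeasureTheory Set Filter Topology

namespace Pool.Agent.N96.PR

open Pool.Agent.R117.RL (E sg sg_pos e1 norm_e1 grad_radial Kcl)

/-- `|∇u|²` -/
noncomputable def grad2 {m k : ℕ} (u : E m × (Fin k → ℝ) → ℂ) (z : E m × (Fin k → ℝ)) : ℝ :=
  ∑ i, ‖fderiv ℝ u z (EuclideanSpace.single i 1, 0)‖ ^ 2 +
    ∑ j, ‖fderiv ℝ u z (0, Pi.single j 1)‖ ^ 2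

variable {q k : ℕ} {u : E (q + 1) × (Fin k → ℝ) → ℂ}

theorem e1_ne {r : ℝ} (hr : 0 < r) : r • e1 q ≠ 0 := by
  rw [ne_eq, smul_eq_zero, not_or]
  exact ⟨hr.ne', fun h => by
    have := norm_e1 q
    rw [h, norm_zero] at this
    exact zero_ne_one this⟩

theorem isOpen_S : IsOpen {z : E (q + 1) × (Fin k → ℝ) | z.1 ≠ 0} :=
  isOpen_ne_fun continuous_fst continuous_const

theorem diffAt (hC : ContDiffOn ℝ 1 u {z | z.1 ≠ 0}) {z : E (q + 1) × (Fin k → ℝ)}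
    (hz : z.1 ≠ 0) : DifferentiableAt ℝ u z :=
  (hC.differentiableOn one_ne_zero).differentiableAt (isOpen_S.mem_nhds hz)

theorem emb_cont : Continuous (fun z : ℝ × (Fin k → ℝ) => (z.1 • e1 q, z.2)) :=
  (continuous_fst.smul continuous_const).prodMk continuous_snd

theorem emb_maps : MapsTo (fun z : ℝ × (Fin k → ℝ) => (z.1 • e1 q, z.2)) (Ioi 0 ×ˢ univ)
    {z : E (q + 1) × (Fin k → ℝ) | z.1 ≠ 0} := fun _ hz => e1_ne hz.1

theorem prof (hr : ∀ x x' y, ‖x‖ = ‖x'‖ → u (x, y) = u (x', y))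
    (z : E (q + 1) × (Fin k → ℝ)) : u z = u (‖z.1‖ • e1 q, z.2) := by
  apply hr
  rw [norm_smul, norm_e1, mul_one, norm_norm]

theorem d0_at (hC : ContDiffOn ℝ 1 u {z | z.1 ≠ 0}) {r : ℝ} (hr : 0 < r) (y : Fin k → ℝ) :
    HasDerivAt (fun t : ℝ => u (t • e1 q, y)) (fderiv ℝ u (r • e1 q, y) (e1 q, 0)) r := by
  have h1 := (diffAt hC (z := (r • e1 q, y)) (e1_ne hr)).hasFDerivAt
  have h2 : HasDerivAt (fun t : ℝ => (t • e1 q, y)) (e1 q, (0 : Fin k → ℝ)) r := by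
    have h3 := (hasDerivAt_id r).smul_const (e1 q)
    rw [one_smul] at h3
    exact h3.prodMk (hasDerivAt_const r y)
  exact h1.comp_hasDerivAt r h2

theorem dj_at (hC : ContDiffOn ℝ 1 u {z | z.1 ≠ 0}) {x : E (q + 1)} (hx : x ≠ 0)
    (y : Fin k → ℝ) (j : Fin k) :
    HasLineDerivAt ℝ (fun y => u (x, y)) (fderiv ℝ u (x, y) (0, Pi.single j 1)) y
      (Pi.single j 1) := by
  have h1 : HasFDerivAt u (fderiv ℝ u (x, y)) (x, y + (0 : ℝ) • Pi.single j 1) := by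
    rw [zero_smul, add_zero]
    exact (diffAt hC (z := (x, y)) hx).hasFDerivAt
  have h2 : HasDerivAt (fun t : ℝ => (x, y + t • (Pi.single j 1 : Fin k → ℝ)))
      ((0 : E (q + 1)), (Pi.single j 1 : Fin k → ℝ)) 0 := by
    have h3 := ((hasDerivAt_id (0 : ℝ)).smul_const (Pi.single j 1 : Fin k → ℝ)).const_add y
    rw [one_smul] at h3
    exact (hasDerivAt_const (0 : ℝ) x).prodMk h3
  exact h1.comp_hasDerivAt 0 h2

theorem grad2_eq (hr : ∀ x x' y, ‖x‖ = ‖x'‖ → u (x, y) = u (x', y))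
    (hC : ContDiffOn ℝ 1 u {z | z.1 ≠ 0}) {x : E (q + 1)} (hx : x ≠ 0) (y : Fin k → ℝ) :
    grad2 u (x, y) = ‖fderiv ℝ u (‖x‖ • e1 q, y) (e1 q, 0)‖ ^ 2 +
      ∑ j, ‖fderiv ℝ u (‖x‖ • e1 q, y) (0, Pi.single j 1)‖ ^ 2 := by
  have hn : 0 < ‖x‖ := norm_pos_iff.2 hx
  unfold grad2
  congr 1
  · have h1 := grad_radial hx (d0_at hC hn y)
    have h2 : (fun x : E (q + 1) => u (‖x‖ • e1 q, y)) = fun x => u (x, y) :=
      funext fun x => (prof hr (x, y)).symm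
    rw [h2] at h1
    rw [← h1]
    unfold Pool.Agent.R117.RL.grad2
    refine Finset.sum_congr rfl fun i _ => ?_
    have h3 : HasFDerivAt (fun x : E (q + 1) => u (x, y))
        ((fderiv ℝ u (x, y)).comp (ContinuousLinearMap.inl ℝ (E (q + 1)) (Fin k → ℝ))) x := by
      have h4 : HasFDerivAt (fun x : E (q + 1) => (x, y))
          (ContinuousLinearMap.inl ℝ (E (q + 1)) (Fin k → ℝ)) x := hasFDerivAt_prodMk_left x y
      exact (diffAt hC (z := (x, y)) hx).hasFDerivAt.comp x h4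
    rw [h3.fderiv]
    rfl
  · refine Finset.sum_congr rfl fun j _ => ?_
    have h1 := dj_at hC hx y j
    have h2 := dj_at hC (x := ‖x‖ • e1 q) (e1_ne hn) y j
    have h3 : (fun y => u (x, y)) = fun y => u (‖x‖ • e1 q, y) :=
      funext fun y => prof hr (x, y)
    rw [h3] at h1
    have h4 : fderiv ℝ u (x, y) (0, Pi.single j 1) =
        fderiv ℝ u (‖x‖ • e1 q, y) (0, Pi.single j 1) := HasDerivAt.unique h1 h2
    rw [h4]

theorem mkProf (hr : ∀ x x' y, ‖x‖ = ‖x'‖ → u (x, y) = u (x', y))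
    (hC : ContDiffOn ℝ 1 u {z | z.1 ≠ 0}) (h2 : Integrable (fun z => ‖u z‖ ^ 2))
    (he : Integrable (grad2 u)) :
    Prof q k (fun z => u (z.1 • e1 q, z.2)) (fun z => fderiv ℝ u (z.1 • e1 q, z.2) (e1 q, 0))
      (fun j z => fderiv ℝ u (z.1 • e1 q, z.2) (0, Pi.single j 1)) ∧
    ∫ z, grad2 u z = (∫ z : E (q + 1) × (Fin k → ℝ),
        ‖fderiv ℝ u (‖z.1‖ • e1 q, z.2) (e1 q, 0)‖ ^ 2) +
      ∑ j : Fin k, ∫ z : E (q + 1) × (Fin k → ℝ),
        ‖fderiv ℝ u (‖z.1‖ • e1 q, z.2) (0, Pi.single j 1)‖ ^ 2 := by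
  have cu : ContinuousOn (fderiv ℝ u) {z | z.1 ≠ 0} :=
    hC.continuousOn_fderiv_of_isOpen isOpen_S le_rfl
  have cu' : ContinuousOn (fun z : ℝ × (Fin k → ℝ) => fderiv ℝ u (z.1 • e1 q, z.2))
      (Ioi 0 ×ˢ univ) := cu.comp emb_cont.continuousOn emb_maps
  have c0 : ContinuousOn (fun z : ℝ × (Fin k → ℝ) => fderiv ℝ u (z.1 • e1 q, z.2) (e1 q, 0))
      (Ioi 0 ×ˢ univ) := cu'.clm_apply continuousOn_const
  have cj : ∀ j : Fin k, ContinuousOn (fun z : ℝ × (Fin k → ℝ) =>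
      fderiv ℝ u (z.1 • e1 q, z.2) (0, Pi.single j 1)) (Ioi 0 ×ˢ univ) :=
    fun j => cu'.clm_apply continuousOn_const
  have hae : ∀ᵐ z ∂(volume : Measure (E (q + 1) × (Fin k → ℝ))), z.1 ≠ 0 := by
    rw [Measure.volume_eq_prod]
    have h1 : ∀ᵐ x ∂(volume : Measure (E (q + 1))), x ≠ 0 := by
      rw [ae_iff]
      simp
    exact Measure.quasiMeasurePreserving_fst.ae h1
  have hg : grad2 u =ᵐ[volume] fun z => ‖fderiv ℝ u (‖z.1‖ • e1 q, z.2) (e1 q, 0)‖ ^ 2 +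
      ∑ j, ‖fderiv ℝ u (‖z.1‖ • e1 q, z.2) (0, Pi.single j 1)‖ ^ 2 := by
    filter_upwards [hae] with z hz
    exact grad2_eq hr hC hz z.2
  have he' := he.congr hg
  have i0 : Integrable (fun z : E (q + 1) × (Fin k → ℝ) =>
      ‖fderiv ℝ u (‖z.1‖ • e1 q, z.2) (e1 q, 0)‖ ^ 2) := by
    refine Integrable.mono' he' (E_meas (G := fun r y => ‖fderiv ℝ u (r • e1 q, y) (e1 q, 0)‖ ^ 2)
      (c0.norm.pow 2)) (Eventually.of_forall fun z => ?_)
    rw [Real.norm_of_nonneg (sq_nonneg _)]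
    exact le_add_of_nonneg_right (Finset.sum_nonneg fun j _ => sq_nonneg _)
  have ij : ∀ j : Fin k, Integrable (fun z : E (q + 1) × (Fin k → ℝ) =>
      ‖fderiv ℝ u (‖z.1‖ • e1 q, z.2) (0, Pi.single j 1)‖ ^ 2) := by
    intro j
    refine Integrable.mono' he' (E_meas
      (G := fun r y => ‖fderiv ℝ u (r • e1 q, y) (0, Pi.single j 1)‖ ^ 2)
      ((cj j).norm.pow 2)) (Eventually.of_forall fun z => ?_)
    rw [Real.norm_of_nonneg (sq_nonneg _)]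
    have h1 := Finset.single_le_sum (f := fun j : Fin k =>
      ‖fderiv ℝ u (‖z.1‖ • e1 q, z.2) (0, Pi.single j 1)‖ ^ 2) (fun j _ => sq_nonneg _)
      (Finset.mem_univ j)
    have h2 : 0 ≤ ‖fderiv ℝ u (‖z.1‖ • e1 q, z.2) (e1 q, 0)‖ ^ 2 := sq_nonneg _
    linarith
  refine ⟨⟨fun r hr' y => d0_at hC hr' y, fun r hr' y j => dj_at hC (e1_ne hr') y j,
    hC.continuousOn.comp emb_cont.continuousOn emb_maps, c0, cj, ?_, i0, ij⟩, ?_⟩
  · refine h2.congr (Eventually.of_forall fun z => ?_)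
    show ‖u z‖ ^ 2 = ‖u (‖z.1‖ • e1 q, z.2)‖ ^ 2
    rw [← prof hr z]
  · rw [integral_congr_ae hg, integral_add i0 (integrable_finsetSum _ fun j _ => ij j),
      integral_finsetSum _ fun j _ => ij j]

theorem full {N : ℕ} (hq : 5 ≤ q) (u : Fin N → E (q + 1) × (Fin k → ℝ) → ℂ)
    (hr : ∀ n x x' y, ‖x‖ = ‖x'‖ → u n (x, y) = u n (x', y))
    (hC : ∀ n, ContDiffOn ℝ 1 (u n) {z | z.1 ≠ 0})
    (h2 : ∀ n, Integrable (fun z => ‖u n z‖ ^ 2)) (he : ∀ n, Integrable (grad2 (u n)))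
    (ho : ∀ n m, ∫ z, star (u n z) * u m z = if n = m then (1 : ℂ) else 0) :
    Integrable (fun z => (∑ n, ‖u n z‖ ^ 2) ^ (1 + 2 / ((q + (k + 1) : ℕ) : ℝ))) ∧
    Kcl (q + (k + 1)) * ∫ z, (∑ n, ‖u n z‖ ^ 2) ^ (1 + 2 / ((q + (k + 1) : ℕ) : ℝ)) ≤
      ∑ n, ∫ z, grad2 (u n) z := by
  have hp := fun n => mkProf (hr n) (hC n) (h2 n) (he n)
  have hs := system (by omega) (fun n z => u n (z.1 • e1 q, z.2))
    (fun n z => fderiv ℝ (u n) (z.1 • e1 q, z.2) (e1 q, 0))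
    (fun n j z => fderiv ℝ (u n) (z.1 • e1 q, z.2) (0, Pi.single j 1)) (fun n => (hp n).1)
    (fun n m => by
      rw [← ho n m]
      refine integral_congr_ae (Eventually.of_forall fun z => ?_)
      show star (u n (‖z.1‖ • e1 q, z.2)) * u m (‖z.1‖ • e1 q, z.2) = star (u n z) * u m z
      rw [← prof (hr n) z, ← prof (hr m) z])
  have e : (fun z : E (q + 1) × (Fin k → ℝ) =>
      (∑ n, ‖u n z‖ ^ 2) ^ (1 + 2 / ((q + (k + 1) : ℕ) : ℝ))) =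
      fun z => (∑ n, ‖u n (‖z.1‖ • e1 q, z.2)‖ ^ 2) ^ (1 + 2 / ((q + (k + 1) : ℕ) : ℝ)) := by
    funext z
    congr 1
    exact Finset.sum_congr rfl fun n _ => by rw [← prof (hr n) z]
  rw [e, Finset.sum_congr rfl fun n _ => (hp n).2]
  refine ⟨hs.1, le_trans (mul_le_mul_of_nonneg_right (Kcl_le_KK hq (Nat.succ_pos k))
    (integral_nonneg fun z => Real.rpow_nonneg (Finset.sum_nonneg fun n _ => sq_nonneg _) _)) hs.2⟩

end Pool.Agent.N96.PR
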