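import Pool.Agent.R117.RL.Rad

/-! Integrals of functions of `(|x|, y)` on `ℝ^(q+1) × ℝ^k`. -/

set_option autoImplicit false

open MeasureTheory Set Filter Topology

namespace Pool.Agent.N96.PR

open Pool.Agent.R117.RL (E sg sg_pos polar polar_int)

/-- The half space `r > 0`. -/
noncomputable def H (k : ℕ) : Measure (ℝ × (Fin k → ℝ)) :=
  (volume.restrict (Ioi (0 : ℝ))).prod volume

theorem H_eq (k : ℕ) : H k = (volume : Measure (ℝ × (Fin k → ℝ))).restrict (Ioi 0 ×ˢ univ) := by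
  rw [H, Measure.volume_eq_prod, ← Measure.prod_restrict, Measure.restrict_univ]

theorem mset (k : ℕ) : MeasurableSet (Ioi (0 : ℝ) ×ˢ (univ : Set (Fin k → ℝ))) :=
  measurableSet_Ioi.prod MeasurableSet.univ

theorem H_ae (k : ℕ) : ∀ᵐ z ∂(H k), z.1 ∈ Ioi (0 : ℝ) := by
  rw [H_eq]
  exact (ae_restrict_mem (mset k)).mono fun z hz => hz.1

theorem H_meas {k : ℕ} {V : Type} [NormedAddCommGroup V] {G : ℝ × (Fin k → ℝ) → V}
    (hG : ContinuousOn G (Ioi 0 ×ˢ univ)) : AEStronglyMeasurable G (H k) := by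
  rw [H_eq]
  exact hG.aestronglyMeasurable (mset k)

theorem E_meas {q k : ℕ} {V : Type} [NormedAddCommGroup V] {G : ℝ → (Fin k → ℝ) → V}
    (hG : ContinuousOn (fun z : ℝ × (Fin k → ℝ) => G z.1 z.2) (Ioi 0 ×ˢ univ)) :
    AEStronglyMeasurable (fun z : E (q + 1) × (Fin k → ℝ) => G ‖z.1‖ z.2) volume := by
  set S : Set (E (q + 1) × (Fin k → ℝ)) := {z | z.1 ≠ 0} with hS
  have hSo : IsOpen S := isOpen_ne_fun continuous_fst continuous_const
  have hc : ContinuousOn (fun z : E (q + 1) × (Fin k → ℝ) => G ‖z.1‖ z.2) S := by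
    refine hG.comp (f := fun z : E (q + 1) × (Fin k → ℝ) => (‖z.1‖, z.2))
      (continuous_fst.norm.prodMk continuous_snd).continuousOn ?_
    intro z hz
    exact ⟨norm_pos_iff.2 hz, mem_univ _⟩
  have hae : ∀ᵐ z ∂(volume : Measure (E (q + 1) × (Fin k → ℝ))), z ∈ S := by
    rw [Measure.volume_eq_prod]
    have h1 : ∀ᵐ x ∂(volume : Measure (E (q + 1))), x ≠ 0 := by
      rw [ae_iff]
      have : {a : E (q + 1) | ¬a ≠ 0} = {0} := by ext; simp
      rw [this]
      exact measure_singleton _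
    exact Measure.quasiMeasurePreserving_fst.ae h1
  have h2 := hc.aestronglyMeasurable (μ := volume) hSo.measurableSet
  rwa [Measure.restrict_eq_self_of_ae_mem hae] at h2

theorem smul_cont {q k : ℕ} {V : Type} [NormedAddCommGroup V] [NormedSpace ℝ V]
    {G : ℝ → (Fin k → ℝ) → V}
    (hG : ContinuousOn (fun z : ℝ × (Fin k → ℝ) => G z.1 z.2) (Ioi 0 ×ˢ univ)) :
    ContinuousOn (fun z : ℝ × (Fin k → ℝ) => z.1 ^ q • G z.1 z.2) (Ioi 0 ×ˢ univ) :=
  ((continuous_fst.pow q).continuousOn).smul hG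

theorem polP_int {q k : ℕ} {V : Type} [NormedAddCommGroup V] [NormedSpace ℝ V]
    {G : ℝ → (Fin k → ℝ) → V}
    (hG : ContinuousOn (fun z : ℝ × (Fin k → ℝ) => G z.1 z.2) (Ioi 0 ×ˢ univ)) :
    Integrable (fun z : E (q + 1) × (Fin k → ℝ) => G ‖z.1‖ z.2) ↔
      Integrable (fun z : ℝ × (Fin k → ℝ) => z.1 ^ q • G z.1 z.2) (H k) := by
  have h1 := E_meas (q := q) hG
  have h2 := H_meas (smul_cont (q := q) hG)
  rw [Measure.volume_eq_prod] at h1 ⊢
  rw [H] at h2 ⊢
  rw [integrable_prod_iff' h1, integrable_prod_iff' h2]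
  refine and_congr ?_ ?_
  · exact eventually_congr (Eventually.of_forall fun y => polar_int (h := fun r => G r y))
  · have e1 : (fun y => ∫ x : E (q + 1), ‖G ‖x‖ y‖) =
        fun y => sg (q + 1) • ∫ r in Ioi 0, r ^ q • ‖G r y‖ :=
      funext fun y => polar (h := fun r => ‖G r y‖)
    have e2 : (fun y => ∫ r in Ioi (0 : ℝ), ‖r ^ q • G r y‖) =
        fun y => ∫ r in Ioi 0, r ^ q • ‖G r y‖ := by
      funext y
      refine setIntegral_congr_fun measurableSet_Ioi fun r hr => ?_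
      have hr0 : (0 : ℝ) < r := hr
      show ‖r ^ q • G r y‖ = r ^ q • ‖G r y‖
      rw [norm_smul, Real.norm_of_nonneg (by positivity), smul_eq_mul]
    show Integrable (fun y => ∫ x : E (q + 1), ‖G ‖x‖ y‖) volume ↔
      Integrable (fun y => ∫ r in Ioi (0 : ℝ), ‖r ^ q • G r y‖) volume
    rw [e1, e2]
    exact integrable_fun_smul_iff (sg_pos (Nat.succ_pos q)).ne' _

theorem polP {q k : ℕ} {V : Type} [NormedAddCommGroup V] [NormedSpace ℝ V]
    {G : ℝ → (Fin k → ℝ) → V}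
    (hG : ContinuousOn (fun z : ℝ × (Fin k → ℝ) => G z.1 z.2) (Ioi 0 ×ˢ univ))
    (hi : Integrable (fun z : E (q + 1) × (Fin k → ℝ) => G ‖z.1‖ z.2)) :
    ∫ z : E (q + 1) × (Fin k → ℝ), G ‖z.1‖ z.2 =
      sg (q + 1) • ∫ z, z.1 ^ q • G z.1 z.2 ∂(H k) := by
  have hi' := (polP_int (q := q) hG).1 hi
  rw [Measure.volume_eq_prod] at hi ⊢
  rw [H] at hi' ⊢
  rw [integral_prod_symm _ hi, integral_prod_symm _ hi', ← integral_smul]
  refine integral_congr_ae (Eventually.of_forall fun y => ?_)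
  exact polar (h := fun r => G r y)

end Pool.Agent.N96.PR
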