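import Pool.Agent.N96.PR.A

/-! The inequality of Hardy type on the half space. -/

set_option autoImplicit false

open MeasureTheory Set Filter Topology

namespace Pool.Agent.N96.PR

open Pool.Agent.R117.RL (total limit_zero)

/-- A function on the half space with its partial derivatives. -/
structure Dat (k : ℕ) (α : ℝ) (f f0 : ℝ × (Fin k → ℝ) → ℂ)
    (fj : Fin k → ℝ × (Fin k → ℝ) → ℂ) : Prop where
  h0 : ∀ r, 0 < r → ∀ y, HasDerivAt (fun t => f (t, y)) (f0 (r, y)) r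
  hj : ∀ r, 0 < r → ∀ y j, HasLineDerivAt ℝ (fun y => f (r, y)) (fj j (r, y)) y (Pi.single j 1)
  cf : ContinuousOn f (Ioi 0 ×ˢ univ)
  c0 : ContinuousOn f0 (Ioi 0 ×ˢ univ)
  cj : ∀ j, ContinuousOn (fj j) (Ioi 0 ×ˢ univ)
  i2 : Integrable (fun z => ‖f z‖ ^ 2) (H k)
  iφ : Integrable (fun z => ‖f0 z - (α / z.1) • f z‖ ^ 2) (H k)
  ij : ∀ j, Integrable (fun z => ‖fj j z‖ ^ 2) (H k)

theorem slice_cont {k : ℕ} {V : Type} [TopologicalSpace V] {g : ℝ × (Fin k → ℝ) → V}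
    (hg : ContinuousOn g (Ioi 0 ×ˢ univ)) (y : Fin k → ℝ) :
    ContinuousOn (fun r => g (r, y)) (Ioi 0) :=
  hg.comp (f := fun r : ℝ => (r, y)) (Continuous.prodMk continuous_id continuous_const).continuousOn
    (fun r hr => ⟨hr, mem_univ _⟩)

theorem slice_cont' {k : ℕ} {V : Type} [TopologicalSpace V] {g : ℝ × (Fin k → ℝ) → V}
    (hg : ContinuousOn g (Ioi 0 ×ˢ univ)) {r : ℝ} (hr : 0 < r) :
    Continuous (fun y => g (r, y)) :=
  hg.comp_continuous (Continuous.prodMk continuous_const continuous_id)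
    (fun y => ⟨hr, mem_univ _⟩)

theorem Dat.hardy {k : ℕ} {α : ℝ} {f f0 : ℝ × (Fin k → ℝ) → ℂ}
    {fj : Fin k → ℝ × (Fin k → ℝ) → ℂ} (hα : 1 < α) (h : Dat k α f f0 fj) :
    Integrable (fun z => ‖f0 z‖ ^ 2 + (α ^ 2 - α) * (‖f z‖ ^ 2 / z.1 ^ 2)) (H k) ∧
    ∫ z, (‖f0 z‖ ^ 2 + (α ^ 2 - α) * (‖f z‖ ^ 2 / z.1 ^ 2)) ∂(H k) ≤
      ∫ z, ‖f0 z - (α / z.1) • f z‖ ^ 2 ∂(H k) := by
  have hαα : 0 < α ^ 2 - α := by nlinarith
  set A : ℝ × (Fin k → ℝ) → ℝ :=
    fun z => ‖f0 z‖ ^ 2 + (α ^ 2 - α) * (‖f z‖ ^ 2 / z.1 ^ 2) with hAdef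
  have hA : ContinuousOn A (Ioi 0 ×ˢ univ) := by
    refine (h.c0.norm.pow 2).add (continuousOn_const.mul ((h.cf.norm.pow 2).div
      (continuous_fst.pow 2).continuousOn fun z hz => ?_))
    have : (0 : ℝ) < z.1 := hz.1
    positivity
  have hnn : ∀ z, 0 ≤ A z := fun z => by simp only [hAdef]; positivity
  have hAm := H_meas hA
  have hφi := h.iφ
  have h2i := h.i2
  rw [H] at hAm hφi h2i ⊢
  have hsl : ∀ᵐ y : Fin k → ℝ, Integrable (fun r => A (r, y)) (volume.restrict (Ioi 0)) ∧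
      ∫ r in Ioi 0, A (r, y) ≤ ∫ r in Ioi 0, ‖f0 (r, y) - (α / r) • f (r, y)‖ ^ 2 := by
    filter_upwards [h2i.prod_left_ae, hφi.prod_left_ae] with y hy1 hy2
    exact total hα (f := fun r => f (r, y)) (f' := fun r => f0 (r, y)) (fun r hr => h.h0 r hr y)
      (slice_cont h.c0 y) hy1 hy2
  have hint : Integrable A ((volume.restrict (Ioi (0 : ℝ))).prod volume) := by
    rw [integrable_prod_iff' hAm]
    refine ⟨hsl.mono fun y hy => hy.1, ?_⟩
    refine Integrable.mono' hφi.integral_prod_right ?_ ?_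
    · exact hAm.norm.prod_swap.integral_prod_right'
    · filter_upwards [hsl] with y hy
      rw [Real.norm_eq_abs, abs_of_nonneg (integral_nonneg fun _ => norm_nonneg _)]
      refine le_trans (le_of_eq ?_) hy.2
      refine integral_congr_ae (Eventually.of_forall fun r => ?_)
      exact Real.norm_of_nonneg (hnn _)
  refine ⟨hint, ?_⟩
  rw [integral_prod_symm _ hint, integral_prod_symm _ hφi]
  refine integral_mono_ae hint.integral_prod_right hφi.integral_prod_right ?_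
  exact hsl.mono fun y hy => hy.2

/-- the coordinates -/
def T {k : ℕ} (x : Fin (k + 1) → ℝ) : ℝ × (Fin k → ℝ) := (x 0, fun j => x j.succ)

theorem T_eq (k : ℕ) :
    (MeasurableEquiv.piFinSuccAbove (fun _ : Fin (k + 1) => ℝ) 0 : (Fin (k + 1) → ℝ) → _) = T := by
  funext x
  rfl

theorem T_mp (k : ℕ) : MeasurePreserving (T (k := k)) volume volume := by
  have h := volume_preserving_piFinSuccAbove (fun _ : Fin (k + 1) => ℝ) 0
  rwa [T_eq] at h

theorem T_me (k : ℕ) : MeasurableEmbedding (T (k := k)) := by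
  have h := (MeasurableEquiv.piFinSuccAbove (fun _ : Fin (k + 1) => ℝ) 0).measurableEmbedding
  rwa [T_eq] at h

theorem cons_T {k : ℕ} (x : Fin (k + 1) → ℝ) : (Fin.cons (T x).1 (T x).2 : Fin (k + 1) → ℝ) = x := by
  funext i
  refine Fin.cases ?_ (fun j => ?_) i
  · rfl
  · rfl

/-- the extension by zero -/
noncomputable def ext {k : ℕ} {V : Type} [Zero V] (g : ℝ × (Fin k → ℝ) → V)
    (x : Fin (k + 1) → ℝ) : V := (Ioi (0 : ℝ) ×ˢ univ).indicator g (T x)

theorem ext_integral {k : ℕ} {V : Type} [NormedAddCommGroup V] [NormedSpace ℝ V]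
    (g : ℝ × (Fin k → ℝ) → V) : ∫ x, ext g x = ∫ z, g z ∂(H k) := by
  unfold ext
  rw [(T_mp k).integral_comp (T_me k), integral_indicator (mset k), H_eq]

theorem ext_integrable {k : ℕ} {V : Type} [NormedAddCommGroup V]
    (g : ℝ × (Fin k → ℝ) → V) : Integrable (ext g) ↔ Integrable g (H k) := by
  unfold ext
  rw [H_eq]
  have h1 := (T_mp k).integrable_comp_emb (T_me k) (g := (Ioi (0 : ℝ) ×ˢ univ).indicator g)
  have h2 := integrable_indicator_iff (μ := (volume : Measure (ℝ × (Fin k → ℝ)))) (f := g) (mset k)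
  exact h1.trans h2

theorem ext_comp {k : ℕ} {V W : Type} [Zero V] [Zero W] (g : ℝ × (Fin k → ℝ) → V) (Φ : V → W)
    (h0 : Φ 0 = 0) (x : Fin (k + 1) → ℝ) : Φ (ext g x) = ext (fun z => Φ (g z)) x := by
  unfold ext
  by_cases h : T x ∈ Ioi (0 : ℝ) ×ˢ (univ : Set (Fin k → ℝ))
  · rw [indicator_of_mem h, indicator_of_mem h]
  · rw [indicator_of_notMem h, indicator_of_notMem h, h0]

theorem ext_memLp {k : ℕ} {g : ℝ × (Fin k → ℝ) → ℂ} (hg : ContinuousOn g (Ioi 0 ×ˢ univ))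
    (hi : Integrable (fun z => ‖g z‖ ^ 2) (H k)) :
    MemLp g 2 (H k) ∧ MemLp (ext g) 2 volume := by
  have h1 : MemLp g 2 (H k) := (memLp_two_iff_integrable_sq_norm (H_meas hg)).2 hi
  refine ⟨h1, ?_⟩
  rw [H_eq] at h1
  exact ((memLp_indicator_iff_restrict (mset k)).2 h1).comp_measurePreserving (T_mp k)

end Pool.Agent.N96.PR
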