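import Pool.Agent.N96.PR.B
import Pool.Agent.R282.KO.Loc

/-! Weak derivatives of the extension by zero. -/

set_option autoImplicit false

open MeasureTheory Set Filter Topology

namespace Pool.Agent.N96.PR

open Pool.Agent.R117.RL (total limit_zero)
open LTd (pd WGradC)

/-- the inverse coordinates -/
def C {k : ℕ} (z : ℝ × (Fin k → ℝ)) : Fin (k + 1) → ℝ := Fin.cons z.1 z.2

theorem C_cont (k : ℕ) : Continuous (C (k := k)) := by
  refine continuous_pi fun i => ?_
  refine Fin.cases ?_ (fun j => ?_) i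
  · exact continuous_fst
  · exact (continuous_apply j).comp continuous_snd

theorem T_cont (k : ℕ) : Continuous (T (k := k)) :=
  (continuous_apply 0).prodMk (continuous_pi fun j => continuous_apply j.succ)

theorem T_C {k : ℕ} (z : ℝ × (Fin k → ℝ)) : T (C z) = z := rfl

theorem C_T {k : ℕ} (x : Fin (k + 1) → ℝ) : C (T x) = x := cons_T x

theorem C_emb (k : ℕ) : IsClosedEmbedding (C (k := k)) :=
  Function.LeftInverse.isClosedEmbedding (f := T) T_C (T_cont k) (C_cont k)

theorem C1_emb {k : ℕ} (y : Fin k → ℝ) : IsClosedEmbedding (fun r : ℝ => C (r, y)) :=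
  Function.LeftInverse.isClosedEmbedding (f := fun x : Fin (k + 1) → ℝ => x 0) (fun _ => rfl)
    (continuous_apply 0) ((C_cont k).comp (Continuous.prodMk continuous_id continuous_const))

theorem C2_emb {k : ℕ} (r : ℝ) : IsClosedEmbedding (fun y : Fin k → ℝ => C (r, y)) :=
  Function.LeftInverse.isClosedEmbedding (f := fun x : Fin (k + 1) → ℝ => fun j : Fin k => x j.succ)
    (fun _ => rfl) (continuous_pi fun j => continuous_apply j.succ)
    ((C_cont k).comp (Continuous.prodMk continuous_const continuous_id))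

theorem C_d0 {k : ℕ} (y : Fin k → ℝ) (r : ℝ) :
    HasDerivAt (fun t : ℝ => C (t, y)) (Pi.single 0 1) r := by
  rw [hasDerivAt_pi]
  intro i
  refine Fin.cases ?_ (fun j => ?_) i
  · simpa [C] using hasDerivAt_id' r
  · simpa [C] using hasDerivAt_const r (y j)

theorem C_dj {k : ℕ} (y : Fin k → ℝ) (r : ℝ) (j : Fin k) :
    HasDerivAt (fun t : ℝ => C (r, y + t • Pi.single j 1)) (Pi.single j.succ 1) 0 := by
  rw [hasDerivAt_pi]
  intro i
  refine Fin.cases ?_ (fun l => ?_) i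
  · simpa [C] using hasDerivAt_const (0 : ℝ) r
  · have h1 : HasDerivAt (fun t : ℝ => y l + t * (Pi.single j (1 : ℝ) : Fin k → ℝ) l)
        ((Pi.single j (1 : ℝ) : Fin k → ℝ) l) 0 := by
      have := ((hasDerivAt_id (0 : ℝ)).mul_const ((Pi.single j (1 : ℝ) : Fin k → ℝ) l)).const_add
        (y l)
      simpa using this
    have h2 : (Pi.single j.succ (1 : ℝ) : Fin (k + 1) → ℝ) l.succ =
        (Pi.single j (1 : ℝ) : Fin k → ℝ) l := by
      by_cases hl : l = j
      · subst hl; simp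
      · rw [Pi.single_eq_of_ne hl, Pi.single_eq_of_ne (fun h => hl (Fin.succ_injective _ h))]
    rw [h2]
    exact h1

theorem phi_d0 {k : ℕ} {φ : (Fin (k + 1) → ℝ) → ℝ} (hφ : ContDiff ℝ (⊤ : ℕ∞) φ)
    (y : Fin k → ℝ) (r : ℝ) : HasDerivAt (fun t : ℝ => φ (C (t, y))) (pd 0 φ (C (r, y))) r := by
  have h1 : HasFDerivAt φ (fderiv ℝ φ (C (r, y))) (C (r, y)) :=
    (hφ.differentiable (by simp) _).hasFDerivAt
  exact h1.comp_hasDerivAt r (C_d0 y r)

theorem phi_dj {k : ℕ} {φ : (Fin (k + 1) → ℝ) → ℝ} (hφ : ContDiff ℝ (⊤ : ℕ∞) φ)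
    (y : Fin k → ℝ) (r : ℝ) (j : Fin k) :
    HasLineDerivAt ℝ (fun y : Fin k → ℝ => φ (C (r, y))) (pd j.succ φ (C (r, y))) y
      (Pi.single j 1) := by
  have h1 : HasFDerivAt φ (fderiv ℝ φ (C (r, y))) (C (r, y + (0 : ℝ) • Pi.single j 1)) := by
    rw [zero_smul, add_zero]
    exact (hφ.differentiable (by simp) _).hasFDerivAt
  exact h1.comp_hasDerivAt 0 (C_dj y r j)

/-- integration by parts in the radial variable -/
theorem ibp0 {α : ℝ} (hα : 1 < α) {h h' : ℝ → ℂ} (hd : ∀ r, 0 < r → HasDerivAt h (h' r) r)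
    (hc : ContinuousOn h' (Ioi 0)) (h2 : IntegrableOn (fun r => ‖h r‖ ^ 2) (Ioi 0))
    (hφ : IntegrableOn (fun r => ‖h' r - (α / r) • h r‖ ^ 2) (Ioi 0)) {ψ ψ' : ℝ → ℝ}
    (hψ : ∀ r, HasDerivAt ψ (ψ' r) r) (hψc : Continuous ψ') (hs : HasCompactSupport ψ)
    (hs' : HasCompactSupport ψ') :
    ∫ r in Ioi (0 : ℝ), h r * (ψ' r : ℂ) = - ∫ r in Ioi (0 : ℝ), h' r * (ψ r : ℂ) := by
  have hαα : 0 < α ^ 2 - α := by nlinarith
  have hch : ContinuousOn h (Ioi 0) := fun r hr => (hd r hr).continuousAt.continuousWithinAt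
  have hψ0 : Continuous ψ := continuous_iff_continuousAt.2 fun r => (hψ r).continuousAt
  have ht := (total hα hd hc h2 hφ).1
  have h2' : IntegrableOn (fun r => ‖h' r‖ ^ 2) (Ioi 0) := by
    refine Integrable.mono' ht ((hc.norm.pow 2).aestronglyMeasurable measurableSet_Ioi) ?_
    refine Eventually.of_forall fun r => ?_
    rw [Real.norm_of_nonneg (sq_nonneg _)]
    have : 0 ≤ (α ^ 2 - α) * (‖h r‖ ^ 2 / r ^ 2) := by positivity
    linarith
  have m1 : MemLp h 2 (volume.restrict (Ioi (0 : ℝ))) :=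
    (memLp_two_iff_integrable_sq_norm (hch.aestronglyMeasurable measurableSet_Ioi)).2 h2
  have m2 : MemLp h' 2 (volume.restrict (Ioi (0 : ℝ))) :=
    (memLp_two_iff_integrable_sq_norm (hc.aestronglyMeasurable measurableSet_Ioi)).2 h2'
  have n1 : MemLp (fun r => (ψ' r : ℂ)) 2 (volume.restrict (Ioi (0 : ℝ))) :=
    ((Complex.continuous_ofReal.comp hψc).memLp_of_hasCompactSupport
      (hs'.comp_left (g := fun t : ℝ => (t : ℂ)) Complex.ofReal_zero)).restrict _
  have n2 : MemLp (fun r => (ψ r : ℂ)) 2 (volume.restrict (Ioi (0 : ℝ))) :=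
    ((Complex.continuous_ofReal.comp hψ0).memLp_of_hasCompactSupport
      (hs.comp_left (g := fun t : ℝ => (t : ℂ)) Complex.ofReal_zero)).restrict _
  have key := integral_Ioi_mul_deriv_eq_deriv_mul (a := 0) (u := h) (u' := h')
    (v := fun r => (ψ r : ℂ)) (v' := fun r => (ψ' r : ℂ)) (a' := 0) (b' := 0)
    (fun r hr => hd r hr) (fun r _ => (hψ r).ofReal_comp) (m1.integrable_mul n1)
    (m2.integrable_mul n2) ?_ ?_
  · rw [key]; ring
  · have l1 := limit_zero hα hd hc h2 hφ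
    have l2 : Tendsto (fun r => (ψ r : ℂ)) (𝓝[>] 0) (𝓝 (ψ 0 : ℂ)) :=
      ((Complex.continuous_ofReal.comp hψ0).tendsto 0).mono_left nhdsWithin_le_nhds
    have := l1.mul l2
    rwa [zero_mul] at this
  · have h5 : (fun r => ψ r) =ᶠ[atTop] fun _ => (0 : ℝ) := by
      have h6 := hasCompactSupport_iff_eventuallyEq.1 hs
      rw [coclosedCompact_eq_cocompact] at h6
      exact h6.filter_mono atTop_le_cocompact
    refine Tendsto.congr' ?_ tendsto_const_nhds
    filter_upwards [h5] with r hr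
    simp [hr]

end Pool.Agent.N96.PR
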