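import Pool.Agent.N96.PR.C

/-! The extension by zero has weak derivatives. -/

set_option autoImplicit false

open MeasureTheory Set Filter Topology

namespace Pool.Agent.N96.PR

open Pool.Agent.R117.RL (total limit_zero)
open LTd (pd WGradC)

theorem pd_supp {m : ℕ} {φ : (Fin m → ℝ) → ℝ} (hc : HasCompactSupport φ) (i : Fin m) :
    HasCompactSupport (pd i φ) :=
  hc.fderiv_apply ℝ (Pi.single i 1)

theorem pd_cont {m : ℕ} {φ : (Fin m → ℝ) → ℝ} (hφ : ContDiff ℝ (⊤ : ℕ∞) φ) (i : Fin m) :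
    Continuous (pd i φ) :=
  (hφ.continuous_fderiv (by simp)).clm_apply continuous_const

theorem comp_memLp {k : ℕ} {p : (Fin (k + 1) → ℝ) → ℝ} (hp : Continuous p)
    (hs : HasCompactSupport p) : MemLp (fun z => (p (C z) : ℂ)) 2 (H k) := by
  rw [H_eq]
  refine MemLp.restrict _ ?_
  have h1 : HasCompactSupport (fun z => p (C z)) := hs.comp_isClosedEmbedding (C_emb k)
  exact (Complex.continuous_ofReal.comp (hp.comp (C_cont k))).memLp_of_hasCompactSupport
    (h1.comp_left (g := fun t : ℝ => (t : ℂ)) Complex.ofReal_zero)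

theorem ext_mul {k : ℕ} (g : ℝ × (Fin k → ℝ) → ℂ) (p : (Fin (k + 1) → ℝ) → ℝ)
    (x : Fin (k + 1) → ℝ) : ext g x * (p x : ℂ) = ext (fun z => g z * (p (C z) : ℂ)) x := by
  unfold ext
  by_cases h : T x ∈ Ioi (0 : ℝ) ×ˢ (univ : Set (Fin k → ℝ))
  · rw [indicator_of_mem h, indicator_of_mem h, C_T]
  · rw [indicator_of_notMem h, indicator_of_notMem h, zero_mul]

/-- integration by parts in the other variables -/
theorem ibpj {k : ℕ} (j : Fin k) {h h' ψ ψ' : (Fin k → ℝ) → ℂ}
    (hd : ∀ y, HasLineDerivAt ℝ h (h' y) y (Pi.single j 1))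
    (hψ : ∀ y, HasLineDerivAt ℝ ψ (ψ' y) y (Pi.single j 1))
    (ch : Continuous h) (ch' : Continuous h') (cψ : Continuous ψ) (cψ' : Continuous ψ')
    (hs : HasCompactSupport ψ) (hs' : HasCompactSupport ψ') :
    ∫ y, h y * ψ' y = - ∫ y, h' y * ψ y := by
  refine integral_bilinear_hasLineDerivAt_right_eq_neg_left_of_integrable
    (B := ContinuousLinearMap.mul ℝ ℂ) ?_ ?_ ?_ (fun y _ => hd y) (fun y _ => hψ y)
  · exact (ch'.mul cψ).integrable_of_hasCompactSupport hs.mul_left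
  · exact (ch.mul cψ').integrable_of_hasCompactSupport hs'.mul_left
  · exact (ch.mul cψ).integrable_of_hasCompactSupport hs.mul_left

theorem Dat.f0_int {k : ℕ} {α : ℝ} {f f0 : ℝ × (Fin k → ℝ) → ℂ}
    {fj : Fin k → ℝ × (Fin k → ℝ) → ℂ} (hα : 1 < α) (h : Dat k α f f0 fj) :
    Integrable (fun z => ‖f0 z‖ ^ 2) (H k) := by
  have hαα : 0 < α ^ 2 - α := by nlinarith
  refine Integrable.mono' (h.hardy hα).1 (H_meas (h.c0.norm.pow 2)) ?_
  refine Eventually.of_forall fun z => ?_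
  rw [Real.norm_of_nonneg (sq_nonneg _)]
  have : 0 ≤ (α ^ 2 - α) * (‖f z‖ ^ 2 / z.1 ^ 2) := by positivity
  linarith

theorem Dat.wgrad {k : ℕ} {α : ℝ} {f f0 : ℝ × (Fin k → ℝ) → ℂ}
    {fj : Fin k → ℝ × (Fin k → ℝ) → ℂ} (hα : 1 < α) (h : Dat k α f f0 fj) :
    WGradC (ext f) (Fin.cons (ext f0) (fun j => ext (fj j))) := by
  have hf := ext_memLp h.cf h.i2
  have hf0 := ext_memLp h.c0 (h.f0_int hα)
  have hfj := fun j => ext_memLp (h.cj j) (h.ij j)
  refine ⟨hf.2, fun i => ?_, fun i φ hφ hc => ?_⟩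
  · refine Fin.cases ?_ (fun j => ?_) i
    · exact hf0.2
    · exact (hfj j).2
  have hφc := hφ.continuous
  revert i
  refine Fin.cases ?_ (fun j => ?_)
  · show ∫ x, ext f x * (pd 0 φ x : ℂ) = - ∫ x, ext f0 x * (φ x : ℂ)
    simp only [ext_mul]
    rw [ext_integral, ext_integral]
    have i1 : Integrable (fun z => f z * (pd 0 φ (C z) : ℂ)) (H k) :=
      hf.1.integrable_mul (comp_memLp (pd_cont hφ 0) (pd_supp hc 0))
    have i2 : Integrable (fun z => f0 z * (φ (C z) : ℂ)) (H k) :=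
      hf0.1.integrable_mul (comp_memLp hφc hc)
    have j1 := h.i2
    have j2 := h.iφ
    rw [H] at i1 i2 j1 j2 ⊢
    rw [integral_prod_symm _ i1, integral_prod_symm _ i2, ← integral_neg]
    refine integral_congr_ae ?_
    filter_upwards [j1.prod_left_ae, j2.prod_left_ae] with y hy1 hy2
    exact ibp0 hα (h := fun r => f (r, y)) (h' := fun r => f0 (r, y))
      (fun r hr => h.h0 r hr y) (slice_cont h.c0 y) hy1 hy2 (ψ := fun r => φ (C (r, y)))
      (ψ' := fun r => pd 0 φ (C (r, y))) (fun r => phi_d0 hφ y r)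
      ((pd_cont hφ 0).comp (C1_emb y).continuous) (hc.comp_isClosedEmbedding (C1_emb y))
      ((pd_supp hc 0).comp_isClosedEmbedding (C1_emb y))
  · show ∫ x, ext f x * (pd j.succ φ x : ℂ) = - ∫ x, ext (fj j) x * (φ x : ℂ)
    simp only [ext_mul]
    rw [ext_integral, ext_integral]
    have i1 : Integrable (fun z => f z * (pd j.succ φ (C z) : ℂ)) (H k) :=
      hf.1.integrable_mul (comp_memLp (pd_cont hφ j.succ) (pd_supp hc j.succ))
    have i2 : Integrable (fun z => fj j z * (φ (C z) : ℂ)) (H k) :=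
      (hfj j).1.integrable_mul (comp_memLp hφc hc)
    rw [H] at i1 i2 ⊢
    rw [integral_prod _ i1, integral_prod _ i2, ← integral_neg]
    refine setIntegral_congr_fun measurableSet_Ioi fun r hr => ?_
    have hr0 : (0 : ℝ) < r := hr
    have cs1 := hc.comp_isClosedEmbedding (C2_emb (k := k) r)
    have cs2 := (pd_supp hc j.succ).comp_isClosedEmbedding (C2_emb (k := k) r)
    refine ibpj j (h := fun y => f (r, y)) (h' := fun y => fj j (r, y))
      (ψ := fun y => (φ (C (r, y)) : ℂ)) (ψ' := fun y => (pd j.succ φ (C (r, y)) : ℂ))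
      (fun y => h.hj r hr0 y j) (fun y => ?_) (slice_cont' h.cf hr0) (slice_cont' (h.cj j) hr0)
      (Complex.continuous_ofReal.comp (hφc.comp (C2_emb r).continuous))
      (Complex.continuous_ofReal.comp ((pd_cont hφ j.succ).comp (C2_emb r).continuous))
      (cs1.comp_left (g := fun t : ℝ => (t : ℂ)) Complex.ofReal_zero)
      (cs2.comp_left (g := fun t : ℝ => (t : ℂ)) Complex.ofReal_zero)
    exact HasDerivAt.ofReal_comp (phi_dj hφ y r j)

end Pool.Agent.N96.PR
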