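import Pool.Agent.N96.PR.D
import Pool.Agent.R117.RL.Cst

/-! The pointwise inequality. -/

set_option autoImplicit false

open MeasureTheory Set Filter Topology

namespace Pool.Agent.N96.PR

open Pool.Agent.R117.RL (pow_frac)

/-- the constant -/
noncomputable def KK (q n : ℕ) (s K : ℝ) : ℝ :=
  (((q + n : ℕ) : ℝ) / (n : ℝ) * K) ^ ((n : ℝ) / ((q + n : ℕ) : ℝ)) *
  (((q + n : ℕ) : ℝ) * ((q : ℝ) - 2) / 4) ^ ((q : ℝ) / ((q + n : ℕ) : ℝ)) *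
  s ^ (2 / ((q + n : ℕ) : ℝ))

theorem KK_pow {q n : ℕ} (hq : 3 ≤ q) (hn : 0 < n) {s K : ℝ} (hK : 0 < K) (hs : 0 < s) :
    KK q n s K ^ (q + n) = (((q + n : ℕ) : ℝ) / (n : ℝ) * K) ^ n *
      (((q + n : ℕ) : ℝ) * ((q : ℝ) - 2) / 4) ^ q * s ^ 2 := by
  have hq' : (3 : ℝ) ≤ q := by exact_mod_cast hq
  have hq2 : (0 : ℝ) < (q : ℝ) - 2 := by linarith
  have hd : 0 < q + n := by omega
  have e1 := pow_frac (x := ((q + n : ℕ) : ℝ) / (n : ℝ) * K) (by positivity) hd n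
  have e2 := pow_frac (x := ((q + n : ℕ) : ℝ) * ((q : ℝ) - 2) / 4) (by positivity) hd q
  have e3 := pow_frac (x := s) hs.le hd 2
  rw [Nat.cast_ofNat] at e3
  unfold KK
  rw [mul_pow, mul_pow, e1, e2, e3]

theorem KK_nonneg {q n : ℕ} (hq : 3 ≤ q) {s K : ℝ} (hK : 0 < K) (hs : 0 < s) :
    0 ≤ KK q n s K := by
  have hq' : (3 : ℝ) ≤ q := by exact_mod_cast hq
  have hq2 : (0 : ℝ) < (q : ℝ) - 2 := by linarith
  unfold KK
  positivity

theorem ptw {q n : ℕ} (hq : 3 ≤ q) (hn : 0 < n) {s r P K : ℝ} (hK : 0 < K) (hs : 0 < s)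
    (hr : 0 < r) (hP : 0 ≤ P) :
    KK q n s K * (s * r ^ q * P ^ (1 + 2 / ((q + n : ℕ) : ℝ))) ≤
      K * (s * r ^ q * P) ^ (1 + 2 / (n : ℝ)) +
        (((q : ℝ) / 2) ^ 2 - (q : ℝ) / 2) * (s * r ^ q * P / r ^ 2) := by
  have hq' : (3 : ℝ) ≤ q := by exact_mod_cast hq
  have hq2 : (0 : ℝ) < (q : ℝ) - 2 := by linarith
  have hn' : (0 : ℝ) < n := by exact_mod_cast hn
  have hd : 0 < q + n := by omega
  have hd' : (0 : ℝ) < ((q + n : ℕ) : ℝ) := by exact_mod_cast hd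
  have hcast : ((q + n : ℕ) : ℝ) = (q : ℝ) + n := by push_cast; ring
  rcases hP.eq_or_lt with h0 | hP
  · rw [← h0, Real.zero_rpow (by positivity)]
    simp only [mul_zero, zero_div, add_zero]
    rw [Real.zero_rpow (by positivity), mul_zero]
  have hKK := KK_pow (n := n) hq hn hK hs
  have hKK0 := KK_nonneg (n := n) hq hK hs
  set S := s * r ^ q * P with hS
  have hSpos : 0 < S := by positivity
  have h1 : P ^ (1 + 2 / ((q + n : ℕ) : ℝ)) = P * P ^ (2 / ((q + n : ℕ) : ℝ)) := by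
    rw [Real.rpow_add hP, Real.rpow_one]
  set p₁ : ℝ := ((q + n : ℕ) : ℝ) / (n : ℝ) * K * S ^ (2 / (n : ℝ)) with hp1
  set p₂ : ℝ := ((q + n : ℕ) : ℝ) * ((q : ℝ) - 2) / 4 / r ^ 2 with hp2
  have hp1p : 0 < p₁ := by positivity
  have hp2p : 0 < p₂ := by positivity
  have hamgm := Real.geom_mean_le_arith_mean2_weighted (w₁ := (n : ℝ) / ((q + n : ℕ) : ℝ))
    (w₂ := (q : ℝ) / ((q + n : ℕ) : ℝ)) (by positivity) (by positivity) hp1p.le hp2p.le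
    (by rw [hcast]; field_simp; ring)
  have heq : KK q n s K * P ^ (2 / ((q + n : ℕ) : ℝ)) =
      p₁ ^ ((n : ℝ) / ((q + n : ℕ) : ℝ)) * p₂ ^ ((q : ℝ) / ((q + n : ℕ) : ℝ)) := by
    rw [← pow_left_inj₀ (by positivity) (by positivity) hd.ne']
    have e3 := pow_frac hP.le hd 2
    have e4 := pow_frac hp1p.le hd n
    have e5 := pow_frac hp2p.le hd q
    have e6 := pow_frac hSpos.le hn 2
    rw [Nat.cast_ofNat] at e3 e6
    rw [mul_pow, mul_pow, hKK, e3, e4, e5, hp1, hp2, mul_pow _ (S ^ (2 / (n : ℝ))), e6, hS,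
      div_pow _ (r ^ 2)]
    have e7 : (r ^ 2) ^ q = (r ^ q) ^ 2 := by rw [← pow_mul, ← pow_mul, mul_comm]
    rw [e7]
    have : (r ^ q) ^ 2 ≠ 0 := by positivity
    field_simp
  have h2 : KK q n s K * P ^ (2 / ((q + n : ℕ) : ℝ)) ≤
      K * S ^ (2 / (n : ℝ)) + (((q : ℝ) / 2) ^ 2 - (q : ℝ) / 2) / r ^ 2 := by
    rw [heq]
    refine hamgm.trans (le_of_eq ?_)
    rw [hp1, hp2]
    field_simp
    ring
  calc KK q n s K * (s * r ^ q * P ^ (1 + 2 / ((q + n : ℕ) : ℝ)))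
      = S * (KK q n s K * P ^ (2 / ((q + n : ℕ) : ℝ))) := by
        rw [h1, hS]
        ring
    _ ≤ S * (K * S ^ (2 / (n : ℝ)) + (((q : ℝ) / 2) ^ 2 - (q : ℝ) / 2) / r ^ 2) :=
        mul_le_mul_of_nonneg_left h2 hSpos.le
    _ = _ := by
        rw [Real.rpow_add hSpos, Real.rpow_one]
        ring

end Pool.Agent.N96.PR
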